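import Pool.Agent.Helper57.SS.Goals2

/-!
# Project SS, part 2 (MP_9a4587_an), packet ES1: trigonometric polynomials near `0` for a singular measure and near
`1` for Lebesgue measure.
-/

set_option autoImplicit false

namespace Pool.Agent.Helper32.SS

open MeasureTheory Filter Topology
open Pool.Agent.Helper57.SS

theorem gES1 : G_ES1 := by
  intro σ _ hs ε hε
  obtain ⟨Z, hZ, hZ1, hZ2⟩ := hs
  set μ : Measure Ci := σ + volume with hμ
  set f : Ci → ℂ := Z.indicator (fun _ => (1 : ℂ)) with hfd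
  have hf : MemLp f 2 μ := memLp_indicator_const 2 hZ 1 (Or.inr (measure_ne_top _ _))
  have he : ENNReal.ofReal (√(ε / 4)) ≠ 0 := by
    rw [Ne, ENNReal.ofReal_eq_zero, not_le]
    positivity
  obtain ⟨g, hg, hgm⟩ := hf.exists_boundedContinuous_eLpNorm_sub_le (by norm_num) he
  have h2 : ∫ z, ‖f z - g z‖ ^ 2 ∂μ ≤ ε / 4 := by
    have h3 := (hf.sub hgm).eLpNorm_eq_integral_rpow_norm (by norm_num) (by norm_num)
    rw [h3, ENNReal.ofReal_le_ofReal_iff (Real.sqrt_nonneg _)] at hg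
    have h4 : (∫ z, ‖f z - g z‖ ^ 2 ∂μ) = ∫ a, ‖(f - (g : Ci → ℂ)) a‖ ^ (2 : ENNReal).toReal ∂μ := by
      refine integral_congr_ae (Eventually.of_forall fun z => ?_)
      simp
    have h5 : 0 ≤ ∫ z, ‖f z - g z‖ ^ 2 ∂μ := integral_nonneg fun z => by positivity
    rw [← h4] at hg
    have h6 : (∫ z, ‖f z - g z‖ ^ 2 ∂μ) ^ ((2 : ENNReal).toReal)⁻¹ =
        √(∫ z, ‖f z - g z‖ ^ 2 ∂μ) := by
      rw [Real.sqrt_eq_rpow]
      norm_num
    rw [h6] at hg
    exact (Real.sqrt_le_sqrt_iff (by positivity)).mp hg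
  set M : ℝ := μ.real Set.univ with hM
  have hM0 : 0 ≤ M := measureReal_nonneg
  set δ : ℝ := √(ε / 4 / (M + 1)) with hδ
  have hδ0 : 0 < δ := Real.sqrt_pos.mpr (by positivity)
  have hδ2 : δ ^ 2 * M ≤ ε / 4 := by
    rw [hδ, Real.sq_sqrt (by positivity), div_mul_eq_mul_div, div_le_iff₀ (by positivity)]
    nlinarith
  have hcl : (g.toContinuousMap : C(Ci, ℂ)) ∈
      (Submodule.span ℂ (Set.range (fourier (T := (1 : ℝ))))).topologicalClosure := by
    rw [span_fourier_closure_eq_top]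
    trivial
  obtain ⟨P, hP, hgP⟩ := Metric.mem_closure_iff.mp hcl δ hδ0
  obtain ⟨c, rfl⟩ := Finsupp.mem_span_range_iff_exists_finsupp.mp hP
  set Q : Ci → ℂ := fun z => c.sum fun n u => u * fourier n z with hQ
  have hev : ∀ z : Ci, (c.sum fun i a => a • (fourier i : C(Ci, ℂ))) z = Q z := by
    intro z
    rw [hQ]
    unfold Finsupp.sum
    rw [ContinuousMap.sum_apply]
    rfl
  have hQc : Continuous Q := by
    have : Q = fun z => (c.sum fun i a => a • (fourier i : C(Ci, ℂ))) z := by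
      funext z
      exact (hev z).symm
    rw [this]
    exact ContinuousMap.continuous _
  have hnear : ∀ z, ‖g z - Q z‖ ≤ δ := by
    intro z
    have h3 := (ContinuousMap.dist_le_iff_of_nonempty (f := g.toContinuousMap)
      (g := c.sum fun i a => a • (fourier i : C(Ci, ℂ)))).mp hgP.le z
    rw [dist_eq_norm, hev] at h3
    exact h3
  have hpt : ∀ z, ‖f z - Q z‖ ^ 2 ≤ 2 * ‖f z - g z‖ ^ 2 + 2 * δ ^ 2 := by
    intro z
    have h3 : ‖f z - Q z‖ ≤ ‖f z - g z‖ + δ := by
      have h4 : f z - Q z = (f z - g z) + (g z - Q z) := by ring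
      rw [h4]
      exact (norm_add_le _ _).trans (by linarith [hnear z])
    have h5 : ‖f z - Q z‖ ^ 2 ≤ (‖f z - g z‖ + δ) ^ 2 := pow_le_pow_left₀ (norm_nonneg _) h3 2
    nlinarith [sq_nonneg (‖f z - g z‖ - δ)]
  have hfm : Measurable f := measurable_const.indicator hZ
  have hint1 : Integrable (fun z => ‖f z - g z‖ ^ 2) μ := (hf.sub hgm).integrable_norm_pow (by norm_num)
  have hint2 : Integrable (fun z => ‖f z - Q z‖ ^ 2) μ := by
    refine Integrable.mono' ((hint1.const_mul 2).add (integrable_const (2 * δ ^ 2)))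
      (((hfm.sub hQc.measurable).norm.pow_const 2).aestronglyMeasurable)
      (Eventually.of_forall fun z => ?_)
    rw [Real.norm_eq_abs, abs_of_nonneg (by positivity)]
    exact hpt z
  have hmain : ∫ z, ‖f z - Q z‖ ^ 2 ∂μ ≤ ε := by
    have h3 : ∫ z, ‖f z - Q z‖ ^ 2 ∂μ ≤ ∫ z, (2 * ‖f z - g z‖ ^ 2 + 2 * δ ^ 2) ∂μ :=
      integral_mono hint2 ((hint1.const_mul 2).add (integrable_const _)) hpt
    rw [integral_add (hint1.const_mul 2) (integrable_const _), integral_const_mul, integral_const,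
      smul_eq_mul] at h3
    have h4 : M * (2 * δ ^ 2) ≤ ε / 2 := by nlinarith
    linarith
  refine ⟨c, ?_, ?_⟩
  · have h3 : ∫ z, ‖Q z‖ ^ 2 ∂σ = ∫ z, ‖f z - Q z‖ ^ 2 ∂σ := by
      refine integral_congr_ae ?_
      have h4 : ∀ᵐ z ∂σ, z ∉ Z := measure_eq_zero_iff_ae_notMem.mp hZ1
      filter_upwards [h4] with z hz
      rw [hfd, Set.indicator_of_notMem hz, zero_sub, norm_neg]
    show ∫ z, ‖Q z‖ ^ 2 ∂σ ≤ ε
    rw [h3]
    refine (integral_mono_measure ?_ (Eventually.of_forall fun z => by positivity) hint2).trans hmain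
    exact Measure.le_add_right le_rfl
  · have h3 : ∫ z, ‖Q z - 1‖ ^ 2 ∂(volume : Measure Ci) = ∫ z, ‖f z - Q z‖ ^ 2 ∂(volume : Measure Ci) := by
      refine integral_congr_ae ?_
      have h4 : ∀ᵐ z ∂(volume : Measure Ci), z ∈ Z := mem_ae_iff.mpr hZ2
      filter_upwards [h4] with z hz
      rw [hfd, Set.indicator_of_mem hz, norm_sub_rev]
    show ∫ z, ‖Q z - 1‖ ^ 2 ∂(volume : Measure Ci) ≤ ε
    rw [h3]
    refine (integral_mono_measure ?_ (Eventually.of_forall fun z => by positivity) hint2).trans hmain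
    exact Measure.le_add_left le_rfl

end Pool.Agent.Helper32.SS
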