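import Pool.Agent.Helper57.SS.Goals

/-!
# Project SS (MP_9a4587_an), packet PICK: almost constant fibres on a set of positive measure.
-/

set_option autoImplicit false

namespace Pool.Agent.Helper32.SS

open MeasureTheory Filter Topology
open Pool.Agent.Helper57.SS

theorem sepL1 (σ : Measure Ci) [IsFiniteMeasure σ] : TopologicalSpace.SeparableSpace (Lp ℝ 1 σ) := by
  have : Fact ((1 : ENNReal) ≠ ⊤) := ⟨ENNReal.one_ne_top⟩
  have : IsSeparable σ := isSeparable_of_sigmaFinite σ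
  have : SecondCountableTopology (Lp ℝ 1 σ) := Lp.SecondCountableTopology
  infer_instance

/-- The dense sequence of `L¹(σ)`, as elements of `L¹(σ)`. -/
noncomputable def dqL (σ : Measure Ci) [IsFiniteMeasure σ] (i : ℕ) : Lp ℝ 1 σ :=
  @TopologicalSpace.denseSeq (Lp ℝ 1 σ) _ (sepL1 σ) _ i

/-- The dense sequence of `L¹(σ)`, as functions. -/
noncomputable def dq (σ : Measure Ci) [IsFiniteMeasure σ] (i : ℕ) : Ci → ℝ :=
  (dqL σ i : Ci → ℝ)

theorem dq_meas (σ : Measure Ci) [IsFiniteMeasure σ] (i : ℕ) : Measurable (dq σ i) :=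
  (Lp.stronglyMeasurable (dqL σ i)).measurable

theorem dq_int (σ : Measure Ci) [IsFiniteMeasure σ] (i : ℕ) : Integrable (dq σ i) σ :=
  L1.integrable_coeFn (dqL σ i)

/-- Density in `L¹`, written with integrals. -/
theorem near (σ : Measure Ci) [IsFiniteMeasure σ] (f : Ci → ℝ) (hf : Integrable f σ) (e : ℝ)
    (he : 0 < e) : ∃ i : ℕ, ∫ t, |f t - dq σ i t| ∂σ < e := by
  have := sepL1 σ
  have hd : DenseRange (dqL σ) := @TopologicalSpace.denseRange_denseSeq (Lp ℝ 1 σ) _ (sepL1 σ) _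
  obtain ⟨i, hi⟩ := hd.exists_dist_lt (hf.toL1 f) he
  refine ⟨i, ?_⟩
  rw [dist_eq_norm, L1.norm_eq_integral_norm] at hi
  refine lt_of_eq_of_lt (integral_congr_ae ?_) hi
  filter_upwards [Lp.coeFn_sub (hf.toL1 f) (dqL σ i),
    hf.coeFn_toL1] with t h1 h2
  rw [h1, Pi.sub_apply, h2, Real.norm_eq_abs]
  rfl

/-- Two functions close to a third one are close. -/
theorem tri (σ : Measure Ci) (f g u : Ci → ℝ) (hf : Integrable f σ) (hg : Integrable g σ)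
    (hu : Integrable u σ) (e : ℝ) (h1 : ∫ t, |f t - u t| ∂σ < e) (h2 : ∫ t, |g t - u t| ∂σ < e) :
    ∫ t, |f t - g t| ∂σ ≤ 2 * e := by
  have h3 : ∫ t, |f t - g t| ∂σ ≤ ∫ t, (|f t - u t| + |g t - u t|) ∂σ := by
    refine integral_mono (hf.sub hg).abs ((hf.sub hu).abs.add (hg.sub hu).abs) fun t => ?_
    have := abs_sub_le (f t) (u t) (g t)
    rw [abs_sub_comm (u t) (g t)] at this
    exact this
  have h4 : ∫ t, (|f t - u t| + |g t - u t|) ∂σ = ∫ t, |f t - u t| ∂σ + ∫ t, |g t - u t| ∂σ :=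
    integral_add (hf.sub hu).abs (hg.sub hu).abs
  linarith

/-- The sets `{s : ∫ |F(s,t) - u(t)| < e}` are measurable. -/
theorem close_meas (σ : Measure Ci) [IsFiniteMeasure σ] (F : Ci × Ci → ℝ) (hF : Measurable F)
    (u : Ci → ℝ) (hu : Measurable u) (e : ℝ) :
    MeasurableSet {s | ∫ t, |F (s, t) - u t| ∂σ < e} := by
  have h1 : Measurable (fun z : Ci × Ci => |F z - u z.2|) :=
    (hF.sub (hu.comp measurable_snd)).abs
  have h2 : StronglyMeasurable (fun s => ∫ t, |F (s, t) - u t| ∂σ) :=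
    h1.stronglyMeasurable.integral_prod_right'
  exact measurableSet_lt h2.measurable measurable_const

theorem gPICK : G_PICK := by
  intro σ1 σ2 σ3 _ _ _ F G δ good hF hG hδ hgood hpos
  have hI : Measurable (fun s => ∫ t, F (s, t) ∂σ2) :=
    (hF.1.stronglyMeasurable.integral_prod_right').measurable
  have hI0 : ∀ s, 0 ≤ ∫ t, F (s, t) ∂σ2 := fun s => integral_nonneg fun t => hF.2.1 _
  have hP : ∀ᵐ s ∂σ1, s ∈ good ∧ Integrable (fun t => F (s, t)) σ2 ∧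
      Integrable (fun y => G (s, y)) σ3 := by
    filter_upwards [hgood, hF.2.2.prod_right_ae, hG.2.2.prod_right_ae] with s h1 h2 h3
    exact ⟨h1, h2, h3⟩
  obtain ⟨Z, hZ1, hZ2, hZ3⟩ := exists_measurable_superset_of_null hP
  set E : ℕ × ℕ × ℕ → Set Ci := fun p => Zᶜ ∩ ({s | 1 / ((p.1 : ℝ) + 1) < ∫ t, F (s, t) ∂σ2} ∩
    ({s | ∫ t, |F (s, t) - dq σ2 p.2.1 t| ∂σ2 < δ / 2 * (1 / ((p.1 : ℝ) + 1))} ∩
      {s | ∫ y, |G (s, y) - dq σ3 p.2.2 y| ∂σ3 < δ / 2 * (1 / ((p.1 : ℝ) + 1))})) with hE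
  have hZg : ∀ s, s ∉ Z → s ∈ good ∧ Integrable (fun t => F (s, t)) σ2 ∧
      Integrable (fun y => G (s, y)) σ3 := by
    intro s hs
    by_contra h
    exact hs (hZ1 h)
  have hcov : {s | 0 < ∫ t, F (s, t) ∂σ2} ⊆ Z ∪ ⋃ p, E p := by
    intro s hs
    by_cases hsZ : s ∈ Z
    · exact Or.inl hsZ
    refine Or.inr ?_
    obtain ⟨h1, h2, h3⟩ := hZg s hsZ
    obtain ⟨n, hn⟩ := exists_nat_one_div_lt (show (0 : ℝ) < ∫ t, F (s, t) ∂σ2 from hs)
    have he : (0 : ℝ) < δ / 2 * (1 / ((n : ℝ) + 1)) := by positivity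
    obtain ⟨i, hi⟩ := near σ2 _ h2 _ he
    obtain ⟨j, hj⟩ := near σ3 _ h3 _ he
    exact Set.mem_iUnion.mpr ⟨(n, i, j), hsZ, hn, hi, hj⟩
  have hne : ∃ p, σ1 (E p) ≠ 0 := by
    by_contra hcon
    push Not at hcon
    have h1 : σ1 {s | 0 < ∫ t, F (s, t) ∂σ2} = 0 := by
      refine measure_mono_null hcov ?_
      rw [measure_union_null_iff]
      exact ⟨hZ3, measure_iUnion_null hcon⟩
    have h2 : ∀ᵐ s ∂σ1, ∫ t, F (s, t) ∂σ2 = 0 := by
      have h3 : ∀ᵐ s ∂σ1, ¬ 0 < ∫ t, F (s, t) ∂σ2 := by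
        rw [ae_iff]
        simpa using h1
      filter_upwards [h3] with s hs
      exact le_antisymm (not_lt.mp hs) (hI0 s)
    rw [integral_prod _ hF.2.2, integral_congr_ae h2] at hpos
    simp at hpos
  obtain ⟨p, hp⟩ := hne
  have hEm : MeasurableSet (E p) :=
    hZ2.compl.inter ((measurableSet_lt measurable_const hI).inter
      ((close_meas σ2 F hF.1 _ (dq_meas σ2 _) _).inter (close_meas σ3 G hG.1 _ (dq_meas σ3 _) _)))
  obtain ⟨s0, hs0⟩ : (E p).Nonempty := nonempty_of_measure_ne_zero hp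
  have hb : δ * (1 / ((p.1 : ℝ) + 1)) ≤ δ * ∫ t, F (s0, t) ∂σ2 :=
    mul_le_mul_of_nonneg_left (le_of_lt hs0.2.1) hδ.le
  refine ⟨s0, E p, (hZg s0 hs0.1).1, hEm, fun s hs => (hZg s hs.1).1, hp,
    lt_trans (by positivity) hs0.2.1, fun s hs => ⟨?_, ?_⟩⟩
  · have := tri σ2 (fun t => F (s, t)) (fun t => F (s0, t)) (dq σ2 p.2.1) (hZg s hs.1).2.1
      (hZg s0 hs0.1).2.1 (dq_int σ2 _) _ hs.2.2.1 hs0.2.2.1
    linarith
  · have := tri σ3 (fun t => G (s, t)) (fun t => G (s0, t)) (dq σ3 p.2.2) (hZg s hs.1).2.2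
      (hZg s0 hs0.1).2.2 (dq_int σ3 _) _ hs.2.2.2 hs0.2.2.2
    linarith

end Pool.Agent.Helper32.SS
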