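import Pool.Agent.Helper57.SS.Goals

/-!
# Project SS (MP_9a4587_an), packet RPD: autocorrelations are even and positive definite.
-/

set_option autoImplicit false

namespace Pool.Agent.Helper32.SS

open MeasureTheory Filter Topology
open Pool.Agent.Helper57.SS

theorem gRPD : G_RPD := by
  intro hZP α _ μ _ R hR f hf
  obtain ⟨z0, -, -, zadd, zm, zmp, -⟩ := hZP α R
  have key : ∀ p q : ℤ, ∫ x, f (zp R p x) * f (zp R q x) ∂μ = rr R μ f (p - q) := by
    intro p q
    have hmp := zmp μ hR q
    have hm : Measurable (fun y => f (zp R (p - q) y) * f y) := (hf.1.comp (zm _)).mul hf.1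
    have h1 := integral_map (μ := μ) hmp.measurable.aemeasurable
      (f := fun y => f (zp R (p - q) y) * f y) hm.aestronglyMeasurable
    rw [hmp.map_eq] at h1
    unfold rr
    rw [h1]
    refine integral_congr_ae (Eventually.of_forall fun x => ?_)
    show f (zp R p x) * f (zp R q x) = f (zp R (p - q) (zp R q x)) * f (zp R q x)
    rw [← zadd, sub_add_cancel]
  have hb : ∀ p q x, ‖f (zp R p x) * f (zp R q x)‖ ≤ 1 := by
    intro p q x
    rw [Real.norm_eq_abs, abs_mul]
    exact mul_le_one₀ (hf.2 _) (abs_nonneg _) (hf.2 _)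
  have hint : ∀ p q : ℤ, Integrable (fun x => f (zp R p x) * f (zp R q x)) μ := by
    intro p q
    exact Integrable.of_bound ((hf.1.comp (zm p)).mul (hf.1.comp (zm q))).aestronglyMeasurable 1
      (Eventually.of_forall (hb p q))
  refine ⟨fun k => ?_, fun k => ?_, fun c => ?_⟩
  · rw [← zero_sub k, ← key 0 k]
    unfold rr
    refine integral_congr_ae (Eventually.of_forall fun x => ?_)
    show f (zp R 0 x) * f (zp R k x) = f (zp R k x) * f x
    rw [z0, mul_comm]
  · rw [← sub_zero k, ← key k 0, ← Real.norm_eq_abs]
    have := norm_integral_le_of_norm_le_const (μ := μ) (Eventually.of_forall (hb k 0))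
    simpa using this
  · have e1 : (c.sum fun p u => c.sum fun q v => u * v * rr R μ f (p - q)) =
        ∫ x, (∑ p ∈ c.support, c p * f (zp R p x)) ^ 2 ∂μ := by
      have e2 : ∀ x, (∑ p ∈ c.support, c p * f (zp R p x)) ^ 2 =
          ∑ p ∈ c.support, ∑ q ∈ c.support, c p * c q * (f (zp R p x) * f (zp R q x)) := by
        intro x
        rw [sq, Finset.sum_mul_sum]
        refine Finset.sum_congr rfl fun p _ => Finset.sum_congr rfl fun q _ => ?_
        ring
      simp_rw [e2]
      rw [integral_finset_sum _ fun p _ => integrable_finset_sum _ fun q _ => (hint p q).const_mul _]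
      unfold Finsupp.sum
      refine Finset.sum_congr rfl fun p _ => ?_
      rw [integral_finset_sum _ fun q _ => (hint p q).const_mul _]
      refine Finset.sum_congr rfl fun q _ => ?_
      rw [integral_const_mul, key]
    rw [e1]
    exact integral_nonneg fun x => sq_nonneg _

end Pool.Agent.Helper32.SS
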